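import Pool.Agent.H505R2.Out

set_option autoImplicit false

namespace Pool.Agent.Results.MP_391708_nt.EvenRoughPair

theorem z6 : ∀ a m : ZMod 6, (m = 0 ∨ m = 2 ∨ m = 4) → (m = 0 ∨ (a ≠ 2 ∧ a ≠ 5)) →
    ∃ j : Fin 6, (((j : ℕ) : ZMod 6) ^ 2 + a = 1 ∨ ((j : ℕ) : ZMod 6) ^ 2 + a = 5) ∧
      ((m * ((j : ℕ) : ZMod 6) - 1) ^ 2 + a * m ^ 2 = 1 ∨
        (m * ((j : ℕ) : ZMod 6) - 1) ^ 2 + a * m ^ 2 = 5) := by decide

theorem of_z6 {z : ℤ} (h : (z : ZMod 6) = 1 ∨ (z : ZMod 6) = 5) : ¬ (2 : ℤ) ∣ z ∧ ¬ (3 : ℤ) ∣ z := by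
  rcases h with h | h
  · have h1 : ((z - 1 : ℤ) : ZMod 6) = 0 := by push_cast; rw [h]; ring
    rw [ZMod.intCast_zmod_eq_zero_iff_dvd] at h1
    push_cast at h1
    constructor <;> omega
  · have h1 : ((z - 5 : ℤ) : ZMod 6) = 0 := by push_cast; rw [h]; ring
    rw [ZMod.intCast_zmod_eq_zero_iff_dvd] at h1
    push_cast at h1
    constructor <;> omega

/-- Let `a ≥ 1`, and let `k ≥ 2` be even, with `3 ∣ k` if `a ≡ 2 mod 3`. For every `ε > 0` there are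
`δ > 0` and `r` such that for all large `X`: either at least `X ^ (1 - ε)` integers `n ≤ X` have
`n ^ 2 + a` equal to a product of an even number, at most `r`, of primes larger than `X ^ δ`, or
at least `X ^ (1 - ε)` integers `n ≤ X` have `n ^ 2 + a` equal to a product of an odd number of such
primes and at least `X ^ (1 - ε)` integers `n ≤ X` have `n ^ 2 + a * k ^ 2` equal to a product of an
even number of such primes. -/
theorem result (a k : ℕ) (ha : 1 ≤ a) (hk : 1 ≤ k) (hk2 : Even k) (hk3 : a % 3 = 2 → 3 ∣ k)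
    (ε : ℝ) (hε : 0 < ε) :
    ∃ δ : ℝ, 0 < δ ∧ ∃ r X₀ : ℕ, ∀ X : ℕ, X₀ ≤ X →
      (X : ℝ) ^ (1 - ε) ≤ (({n : ℕ | n ≤ X ∧ 1 < n ^ 2 + a ∧
          Even (n ^ 2 + a).primeFactorsList.length ∧ (n ^ 2 + a).primeFactorsList.length ≤ r ∧
          ∀ p : ℕ, p.Prime → p ∣ n ^ 2 + a → (X : ℝ) ^ δ < p} : Set ℕ).ncard : ℝ) ∨
      ((X : ℝ) ^ (1 - ε) ≤ (({n : ℕ | n ≤ X ∧ 1 < n ^ 2 + a ∧
          Odd (n ^ 2 + a).primeFactorsList.length ∧ (n ^ 2 + a).primeFactorsList.length ≤ r ∧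
          ∀ p : ℕ, p.Prime → p ∣ n ^ 2 + a → (X : ℝ) ^ δ < p} : Set ℕ).ncard : ℝ) ∧
        (X : ℝ) ^ (1 - ε) ≤ (({n : ℕ | n ≤ X ∧ 1 < n ^ 2 + a * k ^ 2 ∧
          Even (n ^ 2 + a * k ^ 2).primeFactorsList.length ∧
          (n ^ 2 + a * k ^ 2).primeFactorsList.length ≤ r ∧
          ∀ p : ℕ, p.Prime → p ∣ n ^ 2 + a * k ^ 2 → (X : ℝ) ^ δ < p} : Set ℕ).ncard : ℝ)) := by
  obtain ⟨k', hk'⟩ := hk2
  have hkz : ((k : ℕ) : ZMod 6) = 0 ∨ ((k : ℕ) : ZMod 6) = 2 ∨ ((k : ℕ) : ZMod 6) = 4 := by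
    have h1 : k % 6 = 0 ∨ k % 6 = 2 ∨ k % 6 = 4 := by omega
    rw [← ZMod.natCast_mod k 6]
    rcases h1 with h | h | h <;> rw [h] <;> simp
  have haz : ((k : ℕ) : ZMod 6) = 0 ∨ (((a : ℕ) : ZMod 6) ≠ 2 ∧ ((a : ℕ) : ZMod 6) ≠ 5) := by
    by_cases h3 : a % 3 = 2
    · left
      have h4 := hk3 h3
      rw [ZMod.natCast_eq_zero_iff]
      omega
    · right
      constructor
      · intro h
        have h1 : ((a : ℕ) : ZMod 6) = ((2 : ℕ) : ZMod 6) := by exact_mod_cast h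
        rw [ZMod.natCast_eq_natCast_iff'] at h1
        omega
      · intro h
        have h1 : ((a : ℕ) : ZMod 6) = ((5 : ℕ) : ZMod 6) := by exact_mod_cast h
        rw [ZMod.natCast_eq_natCast_iff'] at h1
        omega
  obtain ⟨j, hj1, hj2⟩ := z6 _ _ hkz haz
  have g1 := of_z6 (z := ((j : ℕ) : ℤ) ^ 2 + a) (by push_cast; exact hj1)
  have g2 := of_z6 (z := ((k : ℤ) * ((j : ℕ) : ℤ) - 1) ^ 2 + a * (k : ℤ) ^ 2) (by
    push_cast; exact hj2)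
  obtain ⟨δ, hδ, r, X₀, h⟩ := Pool.Agent.H505R2.core2 (b := 0) (c := (a : ℤ)) (t := 0) (s := 1)
    (s' := 6) (m0 := ((k : ℤ) * ((j : ℕ) : ℤ) - 1) ^ 2 + a * (k : ℤ) ^ 2) (j : ℕ) k hk (Or.inl rfl)
    (by exact_mod_cast ha)
    (by unfold Pool.Agent.H505R2.qf; simp only; convert g1.1 using 2; ring)
    (by unfold Pool.Agent.H505R2.qf; simp only; convert g1.2 using 2; ring)
    (by unfold Pool.Agent.H505R2.qf; norm_num)
    (by unfold Pool.Agent.H505R2.qf; norm_num) (by norm_num) (by norm_num)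
    (by unfold Pool.Agent.H505R2.qf; simp only; ring) g2.1 g2.2 ε hε
  refine ⟨δ, hδ, r, X₀, fun X hX => ?_⟩
  obtain ⟨i, hi, l, hl, h1, h2, h3⟩ := h X hX
  have key1 : ∀ e : ℕ, ∀ N ∈ Pool.Agent.H505R2.SS 0 (a : ℤ) 1 1 δ r X e, N ≤ X ∧ 1 < N ^ 2 + a ∧
      (N ^ 2 + a).primeFactorsList.length % 2 = e ∧ (N ^ 2 + a).primeFactorsList.length ≤ r ∧
      ∀ p : ℕ, p.Prime → p ∣ N ^ 2 + a → (X : ℝ) ^ δ < p := by
    rintro e N ⟨hN, M, e1, e2, e3, e4, e5⟩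
    have e6 : N ^ 2 + a = M := by
      unfold Pool.Agent.H505R2.fm at e1
      have : ((N ^ 2 + a : ℕ) : ℤ) = (M : ℤ) := by push_cast; linarith
      exact_mod_cast this
    rw [e6]
    exact ⟨hN, e2, e3, e4, e5⟩
  have key2 : ∀ e : ℕ, ∀ N ∈ Pool.Agent.H505R2.SS 0 (a : ℤ) k 1 δ r X e, N ≤ X ∧
      1 < N ^ 2 + a * k ^ 2 ∧
      (N ^ 2 + a * k ^ 2).primeFactorsList.length % 2 = e ∧
      (N ^ 2 + a * k ^ 2).primeFactorsList.length ≤ r ∧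
      ∀ p : ℕ, p.Prime → p ∣ N ^ 2 + a * k ^ 2 → (X : ℝ) ^ δ < p := by
    rintro e N ⟨hN, M, e1, e2, e3, e4, e5⟩
    have e6 : N ^ 2 + a * k ^ 2 = M := by
      unfold Pool.Agent.H505R2.fm at e1
      have : ((N ^ 2 + a * k ^ 2 : ℕ) : ℤ) = (M : ℤ) := by push_cast; linarith
      exact_mod_cast this
    rw [e6]
    exact ⟨hN, e2, e3, e4, e5⟩
  have cmp : ∀ {S S' : Set ℕ}, (∀ n ∈ S, n ∈ S') → (∀ n ∈ S', n ≤ X) →
      (X : ℝ) ^ (1 - ε) ≤ (S.ncard : ℝ) → (X : ℝ) ^ (1 - ε) ≤ (S'.ncard : ℝ) := by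
    intro S S' hS hS' hc
    refine hc.trans ?_
    exact_mod_cast Set.ncard_le_ncard hS ((Set.finite_Iic X).subset hS')
  have A0 : (X : ℝ) ^ (1 - ε) ≤ ((Pool.Agent.H505R2.SS 0 (a : ℤ) 1 1 δ r X 0).ncard : ℝ) →
      (X : ℝ) ^ (1 - ε) ≤ (({n : ℕ | n ≤ X ∧ 1 < n ^ 2 + a ∧
          Even (n ^ 2 + a).primeFactorsList.length ∧ (n ^ 2 + a).primeFactorsList.length ≤ r ∧
          ∀ p : ℕ, p.Prime → p ∣ n ^ 2 + a → (X : ℝ) ^ δ < p} : Set ℕ).ncard : ℝ) := by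
    refine cmp ?_ (fun n hn => hn.1)
    intro n hn
    obtain ⟨a1, a2, a3, a4, a5⟩ := key1 0 n hn
    exact ⟨a1, a2, Nat.even_iff.2 a3, a4, a5⟩
  have hi2 : i = 0 ∨ i = 1 := by omega
  have hl2 : l = 0 ∨ l = 1 := by omega
  rcases hi2 with rfl | rfl
  · exact Or.inl (A0 h1)
  · rcases hl2 with rfl | rfl
    · exact Or.inl (A0 h2)
    · right
      refine ⟨cmp ?_ (fun n hn => hn.1) h1, cmp ?_ (fun n hn => hn.1) h3⟩
      · intro n hn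
        obtain ⟨a1, a2, a3, a4, a5⟩ := key1 1 n hn
        exact ⟨a1, a2, Nat.odd_iff.2 a3, a4, a5⟩
      · intro n hn
        obtain ⟨a1, a2, a3, a4, a5⟩ := key2 0 n hn
        exact ⟨a1, a2, Nat.even_iff.2 a3, a4, a5⟩

end Pool.Agent.Results.MP_391708_nt.EvenRoughPair
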