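import Mathlib
import Pool.Agent.H304R2.Sqf4

set_option autoImplicit false

/-- For every integer `a` that is not of the form `-m ^ 2`, each sign `e` and every `ε > 0`, for all
large `N` there are at least `N ^ (1 - ε)` integers `n` with `1 ≤ n ≤ N` such that
`|n ^ 2 + a| = s ^ 2 * m` with `s ≤ N ^ ε` and `μ(m) = e` (so `m` is squarefree). -/
theorem Pool.Agent.Results.MP_391708_nt.NearSquarefreeParity.result (a : ℤ)
    (ha : ∀ m : ℤ, a ≠ -m ^ 2) (e : ℤ) (he : e = 1 ∨ e = -1) (ε : ℝ) (hε : 0 < ε) :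
    ∃ N₀ : ℕ, ∀ N : ℕ, N₀ ≤ N → (N : ℝ) ^ (1 - ε) ≤
      (Set.ncard {n : ℕ | 1 ≤ n ∧ n ≤ N ∧ ∃ s m : ℕ,
        ((n : ℤ) ^ 2 + a).natAbs = s ^ 2 * m ∧ (s : ℝ) ≤ (N : ℝ) ^ ε ∧
          ArithmeticFunction.moebius m = e} : ℝ) := by
  classical
  have hD : ¬ IsSquare ((0 : ℤ) ^ 2 - 4 * a) := by
    rintro ⟨k, hk⟩
    have h2 : (2 : ℤ) ∣ k := by
      have h4 : (2 : ℤ) ∣ k * k := ⟨-2 * a, by linarith⟩
      rcases Int.prime_two.dvd_or_dvd h4 with h | h <;> exact h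
    obtain ⟨m, rfl⟩ := h2
    exact ha m (by linarith)
  obtain ⟨N₀, hN₀⟩ := Pool.Agent.H304R2.main_mu 0 a hD e he ε hε
  refine ⟨N₀, fun N hN => ?_⟩
  have h := hN₀ N hN
  have e1 : {n : ℕ | 1 ≤ n ∧ n ≤ N ∧ ∃ s m : ℕ,
        ((n : ℤ) ^ 2 + a).natAbs = s ^ 2 * m ∧ (s : ℝ) ≤ (N : ℝ) ^ ε ∧
          ArithmeticFunction.moebius m = e} =
      (((Finset.Icc 1 N).filter (fun n : ℕ => ∃ s m : ℕ,
        ((n : ℤ) ^ 2 + 0 * n + a).natAbs = s ^ 2 * m ∧ (s : ℝ) ≤ (N : ℝ) ^ ε ∧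
          ArithmeticFunction.moebius m = e) : Finset ℕ) : Set ℕ) := by
    ext n
    rw [Finset.mem_coe, Finset.mem_filter, Finset.mem_Icc, zero_mul, add_zero, Set.mem_setOf_eq,
      and_assoc]
  rw [e1, Set.ncard_coe_finset]
  convert h using 2
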