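import Mathlib
import Pool.Agent.H373R2.T4.Special

/-!
Primes `n^2 + a` for shifts `a` up to `A`, where `A` is only required to be at least `x^(1/2+δ)`: for every number `k`
of shifts and every `θ < 1`, a positive proportion of all `(a_1, ..., a_k)` in `[1, A]^k` has at least `θ` times the number
of `n ≤ x` with all `n^2 + a_i` prime which is predicted by Hardy and Littlewood (with the singular product cut at `z`).
-/

namespace Pool.Agent.Results.MP_391708_nt.ShortShiftProportion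
open Finset Pool.Agent.H373R2.SH

/-- the number of residues `r` mod `p` such that `p` divides `r^2 + a_i` for some `i` -/
def nu {k : ℕ} (a : Fin k → ℕ) (p : ℕ) : ℕ := #{r ∈ range p | ∃ i, p ∣ r ^ 2 + a i}

/-- the product over the primes `p ≤ z` of `(1 - 1/p)^(-k) (1 - nu(p)/p)` -/
noncomputable def HL {k : ℕ} (a : Fin k → ℕ) (z : ℕ) : ℝ :=
  ∏ p ∈ (range (z + 1)).filter Nat.Prime, (((1 - 1 / (p : ℝ)) ^ k)⁻¹ * (1 - (nu a p : ℝ) / p))

/-- the number of `1 ≤ n ≤ x` such that all the `n^2 + a_i` are prime -/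
def P {k : ℕ} (a : Fin k → ℕ) (x : ℕ) : ℕ := #{n ∈ Icc 1 x | ∀ i, (n ^ 2 + a i).Prime}

lemma HL_eq {k : ℕ} (a : Fin k → ℕ) (z : ℕ) : sgS (fun _ n => n ^ 2) a z = HL a z := by
  unfold sgS HL ufS dnS omS nu
  apply prod_congr rfl; intro p _
  simp only [add_comm (a _)]

lemma P_eq {k : ℕ} (a : Fin k → ℕ) (x : ℕ) : cntS (fun _ n => n ^ 2) a x = P a x := by
  unfold cntS P
  simp only [add_comm (a _)]

lemma nu_two (a : ℕ) : nu (fun _ : Fin 1 => a) 2 = 1 := by
  unfold nu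
  rcases Nat.even_or_odd a with h | h
  · obtain ⟨b, hb⟩ := h
    have : ((range 2).filter (fun r => ∃ _ : Fin 1, 2 ∣ r ^ 2 + a)) = {0} := by
      ext r; simp only [mem_filter, mem_range, exists_const, mem_singleton]
      constructor
      · rintro ⟨h1, h2⟩
        interval_cases r
        · rfl
        · omega
      · rintro rfl; exact ⟨by norm_num, by omega⟩
    rw [this, card_singleton]
  · obtain ⟨b, hb⟩ := h
    have : ((range 2).filter (fun r => ∃ _ : Fin 1, 2 ∣ r ^ 2 + a)) = {1} := by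
      ext r; simp only [mem_filter, mem_range, exists_const, mem_singleton]
      constructor
      · rintro ⟨h1, h2⟩
        interval_cases r
        · omega
        · rfl
      · rintro rfl; exact ⟨by norm_num, by omega⟩
    rw [this, card_singleton]

lemma nu_odd (a p : ℕ) (hp : p.Prime) (hp2 : p ≠ 2) : (nu (fun _ : Fin 1 => a) p : ℤ) = jacobiSym (-(a : ℤ)) p + 1 := by
  have : Fact p.Prime := ⟨hp⟩
  rw [← jacobiSym.legendreSym.to_jacobiSym, ← legendreSym.card_sqrts p hp2]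
  have h1 : nu (fun _ : Fin 1 => a) p = #({x : ZMod p | x ^ 2 = ((-(a : ℤ) : ℤ) : ZMod p)} : Set (ZMod p)).toFinset := by
    unfold nu
    have key : ∀ r : ℕ, (∃ _ : Fin 1, p ∣ r ^ 2 + a) ↔ ((r : ZMod p)) ^ 2 = ((-(a : ℤ) : ℤ) : ZMod p) := by
      intro r
      rw [exists_const, ← ZMod.natCast_eq_zero_iff]
      push_cast
      rw [eq_neg_iff_add_eq_zero]
    apply card_bij (fun (r : ℕ) _ => (r : ZMod p))
    · intro r hr
      rw [mem_filter] at hr
      simp only [Set.mem_toFinset, Set.mem_ofPred_eq]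
      exact (key r).1 hr.2
    · intro r hr s hs hrs
      rw [mem_filter, mem_range] at hr hs
      have := (ZMod.natCast_eq_natCast_iff' r s p).1 hrs
      rwa [Nat.mod_eq_of_lt hr.1, Nat.mod_eq_of_lt hs.1] at this
    · intro x hx
      simp only [Set.mem_toFinset, Set.mem_ofPred_eq] at hx
      refine ⟨x.val, ?_, ZMod.natCast_zmod_val x⟩
      rw [mem_filter, mem_range]
      refine ⟨ZMod.val_lt x, (key _).2 ?_⟩
      rw [ZMod.natCast_zmod_val]; exact hx
  rw [h1]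

/-- for `k = 1` the product is the Hardy-Littlewood product `h_a`, cut at `z` -/
theorem HL_one (a z : ℕ) : HL (fun _ : Fin 1 => a) z =
    ∏ w ∈ (range (z + 1)).filter (fun w => Nat.Prime w ∧ w ≠ 2), (1 - (jacobiSym (-(a : ℤ)) w : ℝ) / ((w : ℝ) - 1)) := by
  unfold HL
  have h1 : (range (z + 1)).filter (fun w => Nat.Prime w ∧ w ≠ 2) = ((range (z + 1)).filter Nat.Prime).filter (fun w => w ≠ 2) := by
    rw [filter_filter]
  conv_rhs => rw [h1, prod_filter]
  apply prod_congr rfl; intro p hp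
  rw [mem_filter] at hp
  have hp1 : (1 : ℝ) < p := by exact_mod_cast hp.2.one_lt
  split_ifs with h
  · have h2 : (nu (fun _ : Fin 1 => a) p : ℝ) = (jacobiSym (-(a : ℤ)) p : ℝ) + 1 := by
      have := nu_odd a p hp.2 h
      exact_mod_cast this
    rw [h2]
    have h3 : (p : ℝ) - 1 ≠ 0 := by linarith
    field_simp
    ring
  · push Not at h
    rw [h, nu_two]
    norm_num

open Classical in
theorem result :
    (∀ (k : ℕ), 1 ≤ k → ∀ (δ : ℝ), 0 < δ → δ < 1 / 2 → ∀ (θ : ℝ), 0 < θ → θ < 1 →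
      ∃ c : ℝ, 0 < c ∧ ∃ y₀ x₀ : ℕ, ∀ x : ℕ, x₀ ≤ x → ∀ A : ℕ, (x : ℝ) ^ (1 / 2 + δ) ≤ A → A ≤ x ^ 2 →
        ∀ z : ℕ, y₀ ≤ z → z ^ 6 ≤ A →
        c * (A : ℝ) ^ k ≤ #((Fintype.piFinset fun _ : Fin k => Icc 1 A).filter (fun a =>
          Function.Injective a ∧ θ * HL a z * (x / (2 * Real.log x) ^ k) ≤ P a x ∧
          c * (x / (Real.log x) ^ k) ≤ P a x))) ∧
    ∀ a z : ℕ, HL (fun _ : Fin 1 => a) z =
      ∏ w ∈ (range (z + 1)).filter (fun w => Nat.Prime w ∧ w ≠ 2), (1 - (jacobiSym (-(a : ℤ)) w : ℝ) / ((w : ℝ) - 1)) := by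
  refine ⟨fun k hk δ hδ0 hδ1 θ hθ0 hθ1 => ?_, HL_one⟩
  obtain ⟨c, hc, y₀, x₀, h⟩ := Pool.Agent.H373R2.T4.near_sq k hk δ hδ0 hδ1 θ hθ0 hθ1
  refine ⟨c, hc, y₀, x₀, fun x hx A hA1 hA2 z hz hz6 => ?_⟩
  refine (h x hx A hA1 hA2 z hz hz6).trans ?_
  · rw [Nat.cast_le]
    apply card_le_card
    intro a ha
    rw [mem_filter] at ha ⊢
    obtain ⟨h1, h2, h3, h4⟩ := ha
    rw [HL_eq, P_eq] at h2
    rw [P_eq] at h3
    exact ⟨h1, h4, h2, h3⟩

end Pool.Agent.Results.MP_391708_nt.ShortShiftProportion
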